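import Pool.Agent.Lib.MP_1f6494_pr.Final

set_option autoImplicit false

namespace Pool.Agent.Results.MP_1f6494_pr.NotAnalytic

open MeasureTheory Pool.Agent.Lib.MP_1f6494_pr

theorem result : ∃ ν : Measure ℝ, IsProbabilityMeasure ν ∧
    (∀ δ : ℝ, Integrable (fun ω => Real.exp (δ * ω)) ν) ∧ ∫ ω, ω ∂ν = 0 ∧ ∫ ω, ω ^ 2 ∂ν = 1 ∧
    ∃ δ β : ℝ, 0 < δ ∧ 0 < β ∧ 0 < Fstar 2 ν (δ, β) ∧
      ¬ DifferentiableAt ℝ (fun t => Fstar 2 ν (t, β)) δ ∧ ¬ AnalyticAt ℝ (Fstar 2 ν) (δ, β) :=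
  final

end Pool.Agent.Results.MP_1f6494_pr.NotAnalytic
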